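import Mathlib

set_option autoImplicit false

open Finset

namespace Pool.Agent.Lib.MP_b92640_nt

/-- one element of the building block -/
def phi (p x c : ℕ) : ℕ := 2 * p * x + (x ^ 3 + c * x) % p

/-- the finite building block, a union of cubic curves over the field with p elements -/
def D (p m : ℕ) : Finset ℕ :=
  ((Finset.Ico 1 p) ×ˢ (Finset.range m)).image (fun z => phi p z.1 z.2)

lemma phi_lt {p x c : ℕ} (hp : 0 < p) (hx : x < p) : phi p x c < 2 * p ^ 2 := by
  unfold phi
  have h1 : (x ^ 3 + c * x) % p < p := Nat.mod_lt _ hp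
  have h2 : x + 1 ≤ p := hx
  nlinarith [Nat.mul_le_mul_left (2 * p) h2]

lemma phi_digits {p a r b s : ℕ} (hr : r < p) (hs : s < p)
    (h : 2 * p * a + r = 2 * p * b + s) : a = b ∧ r = s := by
  have hp : 0 < 2 * p := by omega
  have h1 : (2 * p * a + r) / (2 * p) = a := by
    rw [Nat.mul_add_div hp]
    rw [Nat.div_eq_of_lt (by omega)]; simp
  have h2 : (2 * p * b + s) / (2 * p) = b := by
    rw [Nat.mul_add_div hp]
    rw [Nat.div_eq_of_lt (by omega)]; simp
  have h3 : a = b := by rw [← h1, h, h2]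
  subst h3
  exact ⟨rfl, by omega⟩

lemma D_card {p m : ℕ} (hp : p.Prime) (hm : m ≤ p) : (D p m).card = (p - 1) * m := by
  unfold D
  rw [Finset.card_image_of_injOn]
  · simp
  · rintro ⟨x, c⟩ hx ⟨y, d⟩ hy h
    simp only [coe_product, Set.mem_prod, mem_coe, mem_Ico, mem_range] at hx hy
    simp only [phi] at h
    obtain ⟨h1, h2⟩ := phi_digits (Nat.mod_lt _ hp.pos) (Nat.mod_lt _ hp.pos) h
    subst h1
    have h3 : x ^ 3 + c * x ≡ x ^ 3 + d * x [MOD p] := h2
    have h4 : c * x ≡ d * x [MOD p] := Nat.ModEq.add_left_cancel' _ h3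
    have hcop : Nat.gcd p x = 1 := by
      have : ¬ p ∣ x := fun hd => by
        have := Nat.le_of_dvd (by omega) hd
        omega
      exact (Nat.Prime.coprime_iff_not_dvd hp).2 this
    have h5 : c ≡ d [MOD p] := Nat.ModEq.cancel_right_of_coprime hcop h4
    have h6 : c = d := Nat.ModEq.eq_of_lt_of_lt h5 (by omega) (by omega)
    subst h6
    rfl

/-- a nonzero quadratic polynomial over a field has no three distinct roots -/
lemma quad_zero {K : Type*} [Field K] {A B C x y z : K} (hxy : x ≠ y) (hxz : x ≠ z)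
    (hyz : y ≠ z) (h1 : A * x ^ 2 + B * x + C = 0) (h2 : A * y ^ 2 + B * y + C = 0)
    (h3 : A * z ^ 2 + B * z + C = 0) : A = 0 ∧ B = 0 := by
  have e1 : (x - y) * (A * (x + y) + B) = 0 := by linear_combination h1 - h2
  have e2 : (x - z) * (A * (x + z) + B) = 0 := by linear_combination h1 - h3
  have e3 : A * (x + y) + B = 0 := by
    rcases mul_eq_zero.1 e1 with h | h
    · exact absurd (sub_eq_zero.1 h) hxy
    · exact h
  have e4 : A * (x + z) + B = 0 := by
    rcases mul_eq_zero.1 e2 with h | h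
    · exact absurd (sub_eq_zero.1 h) hxz
    · exact h
  have e5 : A * (y - z) = 0 := by linear_combination e3 - e4
  have hA : A = 0 := by
    rcases mul_eq_zero.1 e5 with h | h
    · exact h
    · exact absurd (sub_eq_zero.1 h) hyz
  refine ⟨hA, ?_⟩
  rw [hA] at e3
  simpa using e3

open Classical in
/-- the fibre bound: two translates of two curves meet at most twice -/
lemma fibre_card {p : ℕ} (hp : p.Prime) (hp5 : 5 ≤ p) {b b' c c' : ℕ} (hbb : b ≠ b')
    (hc : c < p) (hc' : c' < p) :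
    ((Finset.Ico 1 p).filter
      (fun x => ∃ x' ∈ Finset.Ico 1 p, b + phi p x c = b' + phi p x' c')).card ≤ 2 := by
  classical
  have : Fact p.Prime := ⟨hp⟩
  by_contra hcon
  push Not at hcon
  rw [Finset.two_lt_card] at hcon
  obtain ⟨x, hx, y, hy, z, hz, hxy, hxz, hyz⟩ := hcon
  simp only [mem_filter, mem_Ico] at hx hy hz
  obtain ⟨⟨hx1, hxp⟩, x', ⟨hx1', hxp'⟩, hxe⟩ := hx
  obtain ⟨⟨hy1, hyp⟩, y', ⟨hy1', hyp'⟩, hye⟩ := hy
  obtain ⟨⟨hz1, hzp⟩, z', ⟨hz1', hzp'⟩, hze⟩ := hz
  -- the key: differences of the digits are constant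
  have key : ∀ u u' v v' : ℕ, b + phi p u c = b' + phi p u' c' →
      b + phi p v c = b' + phi p v' c' →
      ((u : ℤ) - u' = v - v') ∧
      ((((u ^ 3 + c * u) % p : ℕ) : ℤ) - ((u' ^ 3 + c' * u') % p : ℕ)
        = ((v ^ 3 + c * v) % p : ℕ) - ((v' ^ 3 + c' * v') % p : ℕ)) := by
    intro u u' v v' h1 h2
    unfold phi at h1 h2
    have r1 := Nat.mod_lt (u ^ 3 + c * u) hp.pos
    have r2 := Nat.mod_lt (u' ^ 3 + c' * u') hp.pos
    have r3 := Nat.mod_lt (v ^ 3 + c * v) hp.pos
    have r4 := Nat.mod_lt (v' ^ 3 + c' * v') hp.pos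
    generalize (u ^ 3 + c * u) % p = R1 at *
    generalize (u' ^ 3 + c' * u') % p = R2 at *
    generalize (v ^ 3 + c * v) % p = R3 at *
    generalize (v' ^ 3 + c' * v') % p = R4 at *
    have h1' : (b : ℤ) + (2 * p * u + R1) = b' + (2 * p * u' + R2) := by exact_mod_cast h1
    have h2' : (b : ℤ) + (2 * p * v + R3) = b' + (2 * p * v' + R4) := by exact_mod_cast h2
    have h3 : (2 * p : ℤ) * ((u - u') - (v - v')) = (R3 - R4) - (R1 - R2) := by
      linear_combination h1' - h2'
    have h4 : ((u : ℤ) - u') - (v - v') = 0 := by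
      by_contra hne
      have : 1 ≤ |((u : ℤ) - u') - (v - v')| := Int.one_le_abs hne
      have h5 : |(2 * p : ℤ) * ((u - u') - (v - v'))| < 2 * p := by
        rw [h3, abs_lt]
        constructor
        · have : (R1 : ℤ) < p := by exact_mod_cast r1
          have : (R4 : ℤ) < p := by exact_mod_cast r4
          omega
        · have : (R2 : ℤ) < p := by exact_mod_cast r2
          have : (R3 : ℤ) < p := by exact_mod_cast r3
          omega
      rw [abs_mul] at h5
      have h6 : |(2 * p : ℤ)| = 2 * p := abs_of_nonneg (by positivity)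
      rw [h6] at h5
      have h7 : (0 : ℤ) < 2 * p := by have := hp.pos; omega
      nlinarith
    refine ⟨by linarith, ?_⟩
    rw [h4] at h3
    linarith
  -- pass to the field
  set s : ℤ := (x : ℤ) - x' with hs
  set t : ℤ := (((x ^ 3 + c * x) % p : ℕ) : ℤ) - ((x' ^ 3 + c' * x') % p : ℕ) with ht
  have fieldeq : ∀ u u' : ℕ, (u : ℤ) - u' = s →
      ((((u ^ 3 + c * u) % p : ℕ) : ℤ) - ((u' ^ 3 + c' * u') % p : ℕ) = t) →
      (3 * (s : ZMod p)) * (u : ZMod p) ^ 2
        + ((c : ZMod p) - c' - 3 * (s : ZMod p) ^ 2) * (u : ZMod p)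
        + ((s : ZMod p) ^ 3 + c' * s - t) = 0 := by
    intro u u' h1 h2
    have h1' : (u' : ZMod p) = (u : ZMod p) - (s : ZMod p) := by
      have : ((u : ℤ) : ZMod p) - ((u' : ℤ) : ZMod p) = (s : ZMod p) := by
        rw [← h1]; push_cast; ring
      push_cast at this
      linear_combination -this
    have h2' : ((u : ZMod p) ^ 3 + c * u) - ((u' : ZMod p) ^ 3 + c' * u') = (t : ZMod p) := by
      rw [← h2]
      push_cast
      ring
    rw [h1'] at h2'
    linear_combination h2'
  have ex := fieldeq x x' rfl rfl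
  obtain ⟨ky1, ky2⟩ := key y y' x x' hye hxe
  have ey := fieldeq y y' ky1 ky2
  obtain ⟨kz1, kz2⟩ := key z z' x x' hze hxe
  have ez := fieldeq z z' kz1 kz2
  have inj : ∀ u v : ℕ, u < p → v < p → u ≠ v → (u : ZMod p) ≠ (v : ZMod p) := by
    intro u v hu hv huv h
    rw [ZMod.natCast_eq_natCast_iff] at h
    exact huv (Nat.ModEq.eq_of_lt_of_lt h hu hv)
  obtain ⟨hA, hB⟩ := quad_zero (inj x y hxp hyp hxy) (inj x z hxp hzp hxz) (inj y z hyp hzp hyz)
    ex ey ez
  have h3ne : (3 : ZMod p) ≠ 0 := by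
    have : ((3 : ℕ) : ZMod p) ≠ ((0 : ℕ) : ZMod p) := inj 3 0 (by omega) (by omega) (by omega)
    simpa using this
  have hs0 : (s : ZMod p) = 0 := by
    rcases mul_eq_zero.1 hA with h | h
    · exact absurd h h3ne
    · exact h
  have hcc : (c : ZMod p) = c' := by
    rw [hs0] at hB
    have : (c : ZMod p) - c' = 0 := by simpa using hB
    exact sub_eq_zero.1 this
  have hcc' : c = c' := by
    by_contra hne
    exact inj c c' hc hc' hne hcc
  have hxx : x = x' := by
    by_contra hne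
    apply inj x x' hxp hxp' hne
    have : ((x : ℤ) : ZMod p) - ((x' : ℤ) : ZMod p) = (s : ZMod p) := by
      rw [hs]; push_cast; ring
    rw [hs0] at this
    push_cast at this
    exact sub_eq_zero.1 this
  subst hcc'
  subst hxx
  apply hbb
  omega

/-- translates of a finite set -/
def tr (S : Finset ℕ) (b : ℕ) : Finset ℕ := S.image (fun a => b + a)

lemma tr_card (S : Finset ℕ) (b : ℕ) : (tr S b).card = S.card := by
  unfold tr
  rw [Finset.card_image_of_injective]
  intro x y h
  simpa using h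

lemma inter_card {p m : ℕ} (hp : p.Prime) (hp5 : 5 ≤ p) (hm : m ≤ p) {b b' : ℕ}
    (hbb : b ≠ b') : (tr (D p m) b ∩ tr (D p m) b').card ≤ 2 * m ^ 2 := by
  classical
  have hsub : tr (D p m) b ∩ tr (D p m) b' ⊆
      ((Finset.range m) ×ˢ (Finset.range m)).biUnion (fun cc =>
        ((Finset.Ico 1 p).filter
          (fun x => ∃ x' ∈ Finset.Ico 1 p, b + phi p x cc.1 = b' + phi p x' cc.2)).image
            (fun x => b + phi p x cc.1)) := by
    intro y hy
    simp only [tr, D, mem_inter, mem_image, mem_product, mem_Ico, mem_range, Prod.exists] at hy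
    obtain ⟨⟨u, ⟨x, c, ⟨hx, hc⟩, rfl⟩, rfl⟩, ⟨v, ⟨x', c', ⟨hx', hc'⟩, rfl⟩, hv⟩⟩ := hy
    simp only [mem_biUnion, mem_product, mem_range, mem_image, mem_filter, mem_Ico, Prod.exists]
    exact ⟨c, c', ⟨hc, hc'⟩, x, ⟨hx, x', hx', hv.symm⟩, rfl⟩
  calc (tr (D p m) b ∩ tr (D p m) b').card
      ≤ _ := Finset.card_le_card hsub
    _ ≤ ∑ cc ∈ (Finset.range m) ×ˢ (Finset.range m), 2 := by
        refine Finset.card_biUnion_le.trans (Finset.sum_le_sum ?_)
        rintro ⟨c, c'⟩ hcc
        simp only [mem_product, mem_range] at hcc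
        exact Finset.card_image_le.trans
          (fibre_card (c := c) (c' := c') hp hp5 hbb (by omega) (by omega))
    _ = 2 * m ^ 2 := by
        simp; ring

/-- the sumset as a union of translates -/
def sm (S B : Finset ℕ) : Finset ℕ := B.biUnion (fun b => tr S b)

lemma greedy (S : Finset ℕ) (K : ℕ)
    (hK : ∀ b b' : ℕ, b ≠ b' → (tr S b ∩ tr S b').card ≤ K) (B : Finset ℕ) :
    2 * B.card * S.card ≤ 2 * (sm S B).card + K * B.card ^ 2 := by
  classical
  induction B using Finset.induction_on with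
  | empty => simp
  | insert b B hb ih =>
    have h1 : sm S (insert b B) = tr S b ∪ sm S B := by
      unfold sm; rw [Finset.biUnion_insert]
    have h2 : (tr S b ∩ sm S B).card ≤ K * B.card := by
      have : tr S b ∩ sm S B ⊆ B.biUnion (fun b' => tr S b ∩ tr S b') := by
        intro y hy
        simp only [sm, mem_inter, mem_biUnion] at hy ⊢
        obtain ⟨hy1, b', hb', hy2⟩ := hy
        exact ⟨b', hb', hy1, hy2⟩
      calc (tr S b ∩ sm S B).card ≤ _ := Finset.card_le_card this
        _ ≤ ∑ b' ∈ B, K := by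
            refine Finset.card_biUnion_le.trans (Finset.sum_le_sum ?_)
            intro b' hb'
            exact hK b b' (fun h => hb (h ▸ hb'))
        _ = K * B.card := by simp; ring
    have h3 := Finset.card_union_add_card_inter (tr S b) (sm S B)
    rw [tr_card] at h3
    rw [h1, Finset.card_insert_of_notMem hb]
    nlinarith

/-- finite main estimate -/
lemma finite_main {p j k : ℕ} (hp : p.Prime) (hj : 2 ≤ j) (h1 : 2 ^ j < p)
    (hk : 1 ≤ k) (hk2 : 2 * k ≤ 2 ^ j) (B : Finset ℕ) (hB : B.card = k) :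
    4 ^ j ≤ 8 * (sm (D p (2 ^ j / (2 * k))) B).card := by
  have h4 : 4 ≤ 2 ^ j := by
    calc 4 = 2 ^ 2 := by norm_num
      _ ≤ 2 ^ j := Nat.pow_le_pow_right (by norm_num) hj
  set M := 2 ^ j with hM
  set m := M / (2 * k) with hm
  have hmM : 2 * k * m ≤ M := Nat.mul_div_le M (2 * k)
  have hmlt : M < 2 * k * (m + 1) := by
    have := Nat.lt_mul_div_succ M (show 0 < 2 * k by omega)
    simpa [hm] using this
  have hm1 : 1 ≤ m := by
    rw [hm]; exact (Nat.one_le_div_iff (by omega)).2 hk2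
  have hlow : M ≤ 4 * (k * m) := by nlinarith
  have hmp : m ≤ p := by nlinarith
  have hcard := D_card hp hmp
  have hg := greedy (D p m) (2 * m ^ 2) (fun b b' h => inter_card hp (by omega) hmp h) B
  rw [hcard, hB] at hg
  have hp1 : M ≤ p - 1 := by omega
  have h5 : 2 * k * (M * m) ≤ 2 * k * ((p - 1) * m) :=
    Nat.mul_le_mul_left _ (Nat.mul_le_mul_right _ hp1)
  have h6 : (4 : ℕ) ^ j = M * M := by
    rw [hM, ← mul_pow]
    norm_num
  rw [h6]
  generalize (sm (D p m) B).card = X at *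
  -- with y = k m: M y ≤ X + y ^ 2, M ≤ 4 y, 2 y ≤ M
  set y := k * m with hy
  have e1 : M * y ≤ X + y ^ 2 := by
    have : 2 * k * (M * m) ≤ 2 * X + 2 * m ^ 2 * k ^ 2 := h5.trans hg
    rw [hy]; nlinarith
  have e2 : 2 * y ≤ M := by rw [hy]; nlinarith
  nlinarith

end Pool.Agent.Lib.MP_b92640_nt
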