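import Pool.Agent.Lib.MP_b92640_nt.Core

set_option autoImplicit false

open Finset Filter Topology
open scoped Pointwise

namespace Pool.Agent.Lib.MP_b92640_nt

/-- B is a basis of order h: 0 is in B and every natural number is a sum of h elements of B -/
def IsBasisOfOrder (h : ℕ) (B : Set ℕ) : Prop :=
  0 ∈ B ∧ ∀ n : ℕ, ∃ b : Fin h → ℕ, (∀ i, b i ∈ B) ∧ ∑ i, b i = n

noncomputable def pr (j : ℕ) : ℕ :=
  (Nat.exists_prime_lt_and_le_two_mul (2 ^ j) (by positivity)).choose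

lemma pr_spec (j : ℕ) : (pr j).Prime ∧ 2 ^ j < pr j ∧ pr j ≤ 2 * 2 ^ j :=
  (Nat.exists_prime_lt_and_le_two_mul (2 ^ j) (by positivity)).choose_spec

/-- the j-th block -/
noncomputable def blk (k : ℕ → ℕ) (j : ℕ) : Finset ℕ :=
  tr (D (pr j) (2 ^ j / (2 * k j))) (8 * 4 ^ j)

/-- the sequence -/
def seqA (k : ℕ → ℕ) (J : ℕ) : Set ℕ := {0} ∪ {a | ∃ j, J ≤ j ∧ a ∈ blk k j}

lemma D_lt {p m a : ℕ} (hp : 0 < p) (ha : a ∈ D p m) : a < 2 * p ^ 2 := by
  unfold D at ha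
  simp only [mem_image, mem_product, mem_Ico, mem_range, Prod.exists] at ha
  obtain ⟨x, c, ⟨hx, hc⟩, rfl⟩ := ha
  exact phi_lt hp hx.2

lemma D_lt' {j m a : ℕ} (ha : a ∈ D (pr j) m) : a < 8 * 4 ^ j := by
  have h1 := D_lt (pr_spec j).1.pos ha
  have h2 := (pr_spec j).2.2
  have h3 : (4 : ℕ) ^ j = 2 ^ j * 2 ^ j := by rw [← mul_pow]; norm_num
  have h4 : pr j ^ 2 ≤ (2 * 2 ^ j) ^ 2 := Nat.pow_le_pow_left h2 2
  rw [h3]
  nlinarith

lemma blk_bounds {k : ℕ → ℕ} {j a : ℕ} (ha : a ∈ blk k j) :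
    8 * 4 ^ j ≤ a ∧ a < 16 * 4 ^ j := by
  unfold blk tr at ha
  rw [mem_image] at ha
  obtain ⟨d, hd, rfl⟩ := ha
  have := D_lt' hd
  omega

lemma blk_card {k : ℕ → ℕ} {j : ℕ} : (blk k j).card * k j ≤ 4 ^ j := by
  unfold blk
  rw [tr_card]
  have h1 : 2 ^ j / (2 * k j) ≤ 2 ^ j := Nat.div_le_self _ _
  rw [D_card (pr_spec j).1 (h1.trans (pr_spec j).2.1.le)]
  have h2 := (pr_spec j).2.2
  have h3 : (4 : ℕ) ^ j = 2 ^ j * 2 ^ j := by rw [← mul_pow]; norm_num
  have h4 : 2 * k j * (2 ^ j / (2 * k j)) ≤ 2 ^ j := Nat.mul_div_le _ _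
  have h5 : pr j - 1 ≤ 2 * 2 ^ j := by omega
  rw [h3]
  calc (pr j - 1) * (2 ^ j / (2 * k j)) * k j
      ≤ (2 * 2 ^ j) * (2 ^ j / (2 * k j)) * k j := by gcongr
    _ = 2 ^ j * (2 * k j * (2 ^ j / (2 * k j))) := by ring
    _ ≤ 2 ^ j * 2 ^ j := by gcongr

open Classical in
/-- counting bound for the sequence -/
lemma seqA_count (k : ℕ → ℕ) (J n : ℕ) :
    ((Finset.Ioc 0 n).filter (· ∈ seqA k J)).card ≤
      ∑ j ∈ (Finset.range n).filter (fun j => J ≤ j ∧ 8 * 4 ^ j ≤ n), (blk k j).card := by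
  refine (Finset.card_le_card (t := ((Finset.range n).filter
    (fun j => J ≤ j ∧ 8 * 4 ^ j ≤ n)).biUnion (fun j => blk k j)) ?_).trans
    Finset.card_biUnion_le
  intro a ha
  simp only [mem_filter, mem_Ioc, seqA, Set.mem_union, Set.mem_singleton_iff,
    Set.mem_ofPred_eq] at ha
  obtain ⟨⟨h0, hn⟩, h | ⟨j, hJ, hj⟩⟩ := ha
  · omega
  · simp only [mem_biUnion, mem_filter, mem_range]
    have hb := blk_bounds hj
    have : j < 4 ^ j := Nat.lt_pow_self (by norm_num)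
    refine ⟨j, ⟨by omega, hJ, by omega⟩, hj⟩

open Classical in
lemma basis_card {h : ℕ} {B : Set ℕ} (hB : IsBasisOfOrder h B) (N : ℕ) :
    N ≤ ((Finset.range N).filter (· ∈ B)).card ^ h := by
  have hsub : Finset.range N ⊆
      (Fintype.piFinset (fun _ : Fin h => (Finset.range N).filter (· ∈ B))).image
        (fun b => ∑ i, b i) := by
    intro n hn
    rw [mem_range] at hn
    obtain ⟨b, hb, hs⟩ := hB.2 n
    rw [mem_image]
    refine ⟨b, ?_, hs⟩
    rw [Fintype.mem_piFinset]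
    intro i
    rw [mem_filter, mem_range]
    refine ⟨?_, hb i⟩
    have : b i ≤ ∑ i, b i := Finset.single_le_sum (fun _ _ => Nat.zero_le _) (mem_univ i)
    omega
  have h1 := (Finset.card_le_card hsub).trans Finset.card_image_le
  simpa using h1

open Classical in
/-- at a good scale the sumset is large -/
lemma scale {k : ℕ → ℕ} {J j : ℕ} {B : Set ℕ} (hJ : J ≤ j) (hj : 2 ≤ j) (hk : 1 ≤ k j)
    (hk2 : 2 * k j ≤ 2 ^ j)
    (hB : k j ≤ ((Finset.range (4 ^ j)).filter (· ∈ B)).card) :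
    4 ^ j ≤ 8 * ((Finset.Ioc 0 (17 * 4 ^ j)).filter (· ∈ seqA k J + B)).card := by
  obtain ⟨B', hB', hcard⟩ := Finset.exists_subset_card_eq hB
  have hm := finite_main (pr_spec j).1 hj (pr_spec j).2.1 hk hk2 B' hcard
  refine hm.trans (Nat.mul_le_mul_left 8 ?_)
  set S := sm (D (pr j) (2 ^ j / (2 * k j))) B' with hS
  rw [← tr_card S (8 * 4 ^ j)]
  apply Finset.card_le_card
  intro y hy
  simp only [tr, hS, sm, mem_image, mem_biUnion] at hy
  obtain ⟨z, ⟨b, hb, d, hd, rfl⟩, rfl⟩ := hy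
  have hd' := D_lt' hd
  have hb' := hB' hb
  rw [mem_filter, mem_range] at hb'
  have h4 : 0 < 4 ^ j := by positivity
  rw [mem_filter, mem_Ioc]
  refine ⟨⟨by omega, by omega⟩, ?_⟩
  rw [Set.mem_add]
  refine ⟨8 * 4 ^ j + d, ?_, b, hb'.2, by ring⟩
  right
  refine ⟨j, hJ, ?_⟩
  unfold blk tr
  rw [mem_image]
  exact ⟨d, hd, rfl⟩

open Classical in
/-- from good scales to Schnirelmann density -/
lemma density {k : ℕ → ℕ} {J J1 : ℕ} {B : Set ℕ} (hJ1 : J ≤ J1) (h2 : 2 ≤ J1)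
    (hk : ∀ j, J1 ≤ j → 1 ≤ k j) (hk2 : ∀ j, J1 ≤ j → 2 * k j ≤ 2 ^ j)
    (hB : ∀ j, J1 ≤ j → k j ≤ ((Finset.range (4 ^ j)).filter (· ∈ B)).card)
    (h1 : 1 ∈ B) :
    min (1 / 544 : ℝ) (1 / (17 * 4 ^ J1)) ≤ schnirelmannDensity (seqA k J + B) := by
  rw [le_schnirelmannDensity_iff]
  intro n hn
  have hn' : (0 : ℝ) < n := by exact_mod_cast hn
  rw [le_div_iff₀ hn']
  by_cases hsmall : n < 17 * 4 ^ J1
  · have hone : 1 ≤ ((Finset.Ioc 0 n).filter (· ∈ seqA k J + B)).card := by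
      rw [Nat.one_le_iff_ne_zero, Finset.card_ne_zero]
      refine ⟨1, ?_⟩
      rw [mem_filter, mem_Ioc]
      refine ⟨⟨by omega, hn⟩, ?_⟩
      rw [Set.mem_add]
      exact ⟨0, Or.inl rfl, 1, h1, by simp⟩
    calc min (1 / 544 : ℝ) (1 / (17 * 4 ^ J1)) * n ≤ (1 / (17 * 4 ^ J1)) * n := by
          gcongr; exact min_le_right _ _
      _ ≤ 1 := by
          rw [one_div, inv_mul_le_iff₀ (by positivity), mul_one]
          exact_mod_cast hsmall.le
      _ ≤ _ := by exact_mod_cast hone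
  · push Not at hsmall
    -- choose the scale
    obtain ⟨j, hj1, hj2, hj3⟩ : ∃ j, J1 ≤ j ∧ 17 * 4 ^ j ≤ n ∧ n < 17 * 4 ^ (j + 1) := by
      have hex : ∃ j, n < 17 * 4 ^ (j + 1) := ⟨n, by
        have : n < 4 ^ n := Nat.lt_pow_self (by norm_num)
        have h5 : (4 : ℕ) ^ (n + 1) = 4 * 4 ^ n := by ring
        omega⟩
      classical
      refine ⟨Nat.find hex, ?_, ?_, Nat.find_spec hex⟩
      · by_contra hlt
        push Not at hlt
        have h6 := Nat.find_spec hex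
        have h7 : 4 ^ (Nat.find hex + 1) ≤ 4 ^ J1 := Nat.pow_le_pow_right (by norm_num) hlt
        omega
      · rcases Nat.eq_zero_or_pos (Nat.find hex) with h0 | hpos
        · rw [h0]
          have : 4 ^ 0 ≤ 4 ^ J1 := Nat.pow_le_pow_right (by norm_num) (Nat.zero_le _)
          omega
        · have h8 := Nat.find_min hex (m := Nat.find hex - 1) (by omega)
          push Not at h8
          rwa [Nat.sub_add_cancel hpos] at h8
    have hsc := scale (J := J) (k := k) (j := j) (B := B) (by omega) (by omega) (hk j hj1)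
      (hk2 j hj1) (hB j hj1)
    have hmono : ((Finset.Ioc 0 (17 * 4 ^ j)).filter (· ∈ seqA k J + B)).card ≤
        ((Finset.Ioc 0 n).filter (· ∈ seqA k J + B)).card := by
      apply Finset.card_le_card
      apply Finset.filter_subset_filter
      exact Finset.Ioc_subset_Ioc_right hj2
    have h9 : n ≤ 544 * ((Finset.Ioc 0 n).filter (· ∈ seqA k J + B)).card := by
      have : (4 : ℕ) ^ (j + 1) = 4 * 4 ^ j := by ring
      omega
    calc min (1 / 544 : ℝ) (1 / (17 * 4 ^ J1)) * n ≤ (1 / 544) * n := by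
          gcongr; exact min_le_left _ _
      _ ≤ _ := by
          rw [one_div, inv_mul_le_iff₀ (by norm_num)]
          exact_mod_cast h9

lemma eight_mem {k : ℕ → ℕ} {J : ℕ} (hk : 1 ≤ k J) (hk2 : 2 * k J ≤ 2 ^ J) (hJ : 2 ≤ J) :
    8 * 4 ^ J + 2 * pr J + 1 ∈ seqA k J := by
  right
  refine ⟨J, le_rfl, ?_⟩
  unfold blk tr
  rw [mem_image]
  refine ⟨2 * pr J + 1, ?_, by ring⟩
  unfold D
  rw [mem_image]
  refine ⟨(1, 0), ?_, ?_⟩
  · have h1 := (pr_spec J).2.1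
    have h2 : 4 ≤ 2 ^ J := by
      calc 4 = 2 ^ 2 := by norm_num
        _ ≤ 2 ^ J := Nat.pow_le_pow_right (by norm_num) hJ
    have h3 : 0 < 2 ^ J / (2 * k J) := Nat.div_pos hk2 (by omega)
    simp only [mem_product, mem_Ico, mem_range]
    omega
  · have h1 := (pr_spec J).1.two_le
    unfold phi
    have : (1 ^ 3 + 0 * 1) % pr J = 1 := Nat.mod_eq_of_lt (by omega)
    rw [this]; ring

/-- the sequence differs from the primes: it does not contain 1 -/
lemma seqA_ne {k : ℕ → ℕ} {J : ℕ} : seqA k J ≠ {0, 1} ∪ {p | p.Prime} := by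
  intro h
  have h1 : (1 : ℕ) ∈ seqA k J := by rw [h]; left; right; rfl
  rcases h1 with h1 | ⟨j, _, hj⟩
  · exact absurd h1 (by norm_num)
  · have := (blk_bounds hj).1
    have h4 : 0 < 4 ^ j := by positivity
    omega

lemma zero_mem {k : ℕ → ℕ} {J : ℕ} : 0 ∈ seqA k J := Or.inl rfl

/-- sanity check: a basis of order 2 is a set B with 0 in B and B + B everything -/
lemma isBasisOfOrder_two (B : Set ℕ) :
    IsBasisOfOrder 2 B ↔ 0 ∈ B ∧ B + B = Set.univ := by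
  unfold IsBasisOfOrder
  refine and_congr_right fun _ => ?_
  rw [Set.eq_univ_iff_forall]
  refine forall_congr' fun n => ?_
  rw [Set.mem_add]
  constructor
  · rintro ⟨b, hb, hs⟩
    exact ⟨b 0, hb 0, b 1, hb 1, by rw [← hs, Fin.sum_univ_two]⟩
  · rintro ⟨x, hx, y, hy, hxy⟩
    refine ⟨![x, y], ?_, by rw [Fin.sum_univ_two]; simpa using hxy⟩
    intro i
    fin_cases i
    · simpa using hx
    · simpa using hy

end Pool.Agent.Lib.MP_b92640_nt
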